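import Pool.Agent.W133.DQ.StB

/-!
# Project DQ: the composition estimate (Faa di Bruno)
-/

set_option autoImplicit false

open scoped ContDiff
open Set Filter Topology

namespace Pool.Agent.W397.DQ

open Pool.Agent.W133.DQ OrderedFinpartition

/-! ### Ordered partitions with extreme length -/

theorem uniq_full (n : ℕ) : ∀ c c' : OrderedFinpartition n, c.length = n → c'.length = n →
    c = c' := by
  induction n with
  | zero => intro c c' _ _; exact Subsingleton.elim _ _
  | succ n ih =>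
    intro c c' hc hc'
    obtain ⟨⟨d, o⟩, rfl⟩ := (extendEquiv n).surjective c
    obtain ⟨⟨d', o'⟩, rfl⟩ := (extendEquiv n).surjective c'
    simp only [extendEquiv_apply] at hc hc' ⊢
    match o, o' with
    | some i, _ =>
      rw [extend_some, extendMiddle_length] at hc
      have := d.length_le
      omega
    | none, some i =>
      rw [extend_some, extendMiddle_length] at hc'
      have := d'.length_le
      omega
    | none, none =>
      rw [extend_none, extendLeft_length] at hc hc'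
      rw [ih d d' (by omega) (by omega)]

theorem uniq_one (n : ℕ) : ∀ c c' : OrderedFinpartition (n + 1), c.length = 1 → c'.length = 1 →
    c = c' := by
  induction n with
  | zero =>
    intro c c' _ _
    have : Subsingleton (OrderedFinpartition 1) := inferInstance
    exact this.elim c c'
  | succ n ih =>
    intro c c' hc hc'
    obtain ⟨⟨d, o⟩, rfl⟩ := (extendEquiv (n + 1)).surjective c
    obtain ⟨⟨d', o'⟩, rfl⟩ := (extendEquiv (n + 1)).surjective c'
    simp only [extendEquiv_apply] at hc hc' ⊢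
    have hd := d.length_pos (Nat.succ_pos n)
    have hd' := d'.length_pos (Nat.succ_pos n)
    match o, o' with
    | none, _ =>
      rw [extend_none, extendLeft_length] at hc
      omega
    | some i, none =>
      rw [extend_none, extendLeft_length] at hc'
      omega
    | some i, some i' =>
      rw [extend_some, extendMiddle_length] at hc hc'
      obtain rfl := ih d d' hc hc'
      have : i = i' := Fin.ext (by omega)
      rw [this]

theorem sum_partSize {n : ℕ} (c : OrderedFinpartition n) : ∑ i, c.partSize i = n := by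
  have h := Fintype.card_congr c.equivSigma
  rw [Fintype.card_sigma, Fintype.card_fin] at h
  simpa using h

theorem partSize_lt {n : ℕ} (c : OrderedFinpartition n) (h : 2 ≤ c.length) (i : Fin c.length) :
    c.partSize i < n := by
  have h1 := sum_partSize c
  have h2 : ∃ j : Fin c.length, j ≠ i := by
    have : Nontrivial (Fin c.length) := Fin.nontrivial_iff_two_le.mpr h
    exact exists_ne i
  obtain ⟨j, hj⟩ := h2
  have h3 : c.partSize i + c.partSize j ≤ ∑ k, c.partSize k := by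
    rw [← Finset.add_sum_erase _ _ (Finset.mem_univ i)]
    refine Nat.add_le_add_left ?_ _
    exact Finset.single_le_sum (f := c.partSize) (fun k _ => Nat.zero_le _)
      (Finset.mem_erase.mpr ⟨hj, Finset.mem_univ j⟩)
  have h4 := c.partSize_pos j
  omega

theorem exists_partSize {n : ℕ} (c : OrderedFinpartition n) (h : c.length < n) :
    ∃ i, 2 ≤ c.partSize i := by
  by_contra hcon
  push Not at hcon
  have h1 := sum_partSize c
  have h2 : ∑ i, c.partSize i ≤ ∑ _i : Fin c.length, 1 :=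
    Finset.sum_le_sum fun i _ => by have := hcon i; omega
  simp only [Finset.sum_const, Finset.card_univ, Fintype.card_fin, smul_eq_mul, mul_one] at h2
  omega

theorem partSize_full {n : ℕ} (c : OrderedFinpartition n) (h : c.length = n)
    (i : Fin c.length) : c.partSize i = 1 := by
  have h1 := sum_partSize c
  have h4 := c.partSize_pos i
  have h3 : c.partSize i + ∑ k ∈ Finset.univ.erase i, 1 ≤ ∑ k, c.partSize k := by
    rw [← Finset.add_sum_erase _ _ (Finset.mem_univ i)]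
    exact Nat.add_le_add_left (Finset.sum_le_sum fun k _ => c.partSize_pos k) _
  rw [Finset.sum_const, Finset.card_erase_of_mem (Finset.mem_univ i), Finset.card_univ,
    Fintype.card_fin, smul_eq_mul, mul_one] at h3
  have := i.2
  omega

/-! ### The displacement map -/

/-- `p ↦ (p.1 + v p, p.2)` -/
def GG (v : P2 → ℝ) (p : P2) : P2 := (p.1 + v p, p.2)

theorem GG_eq (v : P2 → ℝ) : GG v = (fun p => p) + (ContinuousLinearMap.inl ℝ ℝ ℝ) ∘ v := by
  funext p
  refine Prod.ext ?_ ?_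
  · simp [GG]
  · simp [GG]

theorem GG_smooth {v : P2 → ℝ} (hv : ContDiff ℝ ∞ v) : ContDiff ℝ ∞ (GG v) := by
  unfold GG
  fun_prop

theorem norm_id_one (p : P2) : ‖iteratedFDeriv ℝ 1 (fun p : P2 => p) p‖ ≤ 1 := by
  rw [norm_iteratedFDeriv_one, fderiv_fun_id]
  exact ContinuousLinearMap.norm_id_le

theorem id_two (j : ℕ) (hj : 2 ≤ j) (p : P2) : iteratedFDeriv ℝ j (fun p : P2 => p) p = 0 := by
  obtain ⟨m, rfl⟩ : ∃ m, j = (m + 1) + 1 := ⟨j - 2, by omega⟩
  rw [← norm_eq_zero, ← norm_iteratedFDeriv_fderiv]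
  have : fderiv ℝ (fun p : P2 => p) = fun _ => ContinuousLinearMap.id ℝ P2 := by
    funext q
    exact fderiv_fun_id
  rw [this, iteratedFDeriv_succ_const]
  simp

theorem norm_GG_le {v : P2 → ℝ} (hv : ContDiff ℝ ∞ v) (j : ℕ) (p : P2) :
    ‖iteratedFDeriv ℝ j (GG v) p‖ ≤ ‖iteratedFDeriv ℝ j (fun p : P2 => p) p‖ +
      ‖iteratedFDeriv ℝ j v p‖ := by
  have hj : ((j : ℕ∞ω)) ≤ (∞ : ℕ∞ω) := by exact_mod_cast le_top
  have hid : ContDiff ℝ (j : ℕ∞ω) (fun p : P2 => p) := contDiff_id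
  rw [GG_eq, iteratedFDeriv_add_apply hid.contDiffAt
    (((ContinuousLinearMap.inl ℝ ℝ ℝ).contDiff.comp (hv.of_le hj)).contDiffAt)]
  refine (norm_add_le _ _).trans (add_le_add le_rfl ?_)
  refine ((ContinuousLinearMap.inl ℝ ℝ ℝ).norm_iteratedFDeriv_comp_left
    (hv.contDiffAt) hj).trans ?_
  calc ‖ContinuousLinearMap.inl ℝ ℝ ℝ‖ * ‖iteratedFDeriv ℝ j v p‖
      ≤ 1 * ‖iteratedFDeriv ℝ j v p‖ :=
        mul_le_mul_of_nonneg_right (ContinuousLinearMap.norm_inl_le_one ℝ ℝ ℝ) (norm_nonneg _)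
    _ = _ := one_mul _

theorem norm_GG_one {v : P2 → ℝ} (hv : ContDiff ℝ ∞ v) (p : P2) :
    ‖iteratedFDeriv ℝ 1 (GG v) p‖ ≤ 1 + ‖iteratedFDeriv ℝ 1 v p‖ :=
  (norm_GG_le hv 1 p).trans (add_le_add (norm_id_one p) le_rfl)

theorem norm_GG_two {v : P2 → ℝ} (hv : ContDiff ℝ ∞ v) (j : ℕ) (hj : 2 ≤ j) (p : P2) :
    ‖iteratedFDeriv ℝ j (GG v) p‖ ≤ ‖iteratedFDeriv ℝ j v p‖ := by
  have h := norm_GG_le hv j p
  rwa [id_two j hj, norm_zero, zero_add] at h

/-! ### The composition -/

theorem norm_comp_le {u : P2 → ℝ} {G : P2 → P2} (hu : ContDiff ℝ ∞ u) (hG : ContDiff ℝ ∞ G)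
    (r : ℕ) (p : P2) : ‖iteratedFDeriv ℝ r (u ∘ G) p‖ ≤
      ∑ c : OrderedFinpartition r, ‖iteratedFDeriv ℝ c.length u (G p)‖ *
        ∏ i, ‖iteratedFDeriv ℝ (c.partSize i) G p‖ := by
  have h1 : HasFTaylorSeriesUpToOn ∞ (u ∘ G)
      (fun x => (ftaylorSeries ℝ u (G x)).taylorComp (ftaylorSeries ℝ G x)) univ :=
    HasFTaylorSeriesUpToOn.comp (t := univ)
      (hasFTaylorSeriesUpToOn_univ_iff.mpr hu.ftaylorSeries)
      (hasFTaylorSeriesUpToOn_univ_iff.mpr hG.ftaylorSeries) (mapsTo_univ _ _)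
  have h2 := (hasFTaylorSeriesUpToOn_univ_iff.mp h1).eq_iteratedFDeriv (m := r)
    (by exact_mod_cast le_top) p
  rw [← h2]
  unfold FormalMultilinearSeries.taylorComp
  refine (norm_sum_le _ _).trans (Finset.sum_le_sum fun c _ => ?_)
  exact c.norm_compAlongOrderedFinpartition_le _ _

theorem term_le {r : ℕ} (hr : 1 ≤ r) {u v : P2 → ℝ} (hv : ContDiff ℝ ∞ v) (p : P2) {a : ℝ}
    (ha : 0 ≤ a) (h : ∀ j : ℕ, 1 ≤ j → j < r → ‖iteratedFDeriv ℝ j u (GG v p)‖ ≤ a ∧
      ‖iteratedFDeriv ℝ j v p‖ ≤ a) (c : OrderedFinpartition r) :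
    ‖iteratedFDeriv ℝ c.length u (GG v p)‖ * ∏ i, ‖iteratedFDeriv ℝ (c.partSize i) (GG v) p‖ ≤
      (if c.length = r then
        (1 + ‖iteratedFDeriv ℝ 1 v p‖) ^ r * ‖iteratedFDeriv ℝ r u (GG v p)‖ else 0) +
      (if c.length = 1 then
        ‖iteratedFDeriv ℝ 1 u (GG v p)‖ * ‖iteratedFDeriv ℝ r v p‖ else 0) +
      a ^ 2 * (1 + a) ^ r := by
  have hX : 0 ≤ (1 + ‖iteratedFDeriv ℝ 1 v p‖) ^ r * ‖iteratedFDeriv ℝ r u (GG v p)‖ := by
    positivity
  have hY : 0 ≤ ‖iteratedFDeriv ℝ 1 u (GG v p)‖ * ‖iteratedFDeriv ℝ r v p‖ := by positivity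
  have hZ : 0 ≤ a ^ 2 * (1 + a) ^ r := by positivity
  have hpos := c.length_pos hr
  by_cases h1 : c.length = r
  · have h2 : ‖iteratedFDeriv ℝ c.length u (GG v p)‖ *
        ∏ i, ‖iteratedFDeriv ℝ (c.partSize i) (GG v) p‖ ≤
        (1 + ‖iteratedFDeriv ℝ 1 v p‖) ^ r * ‖iteratedFDeriv ℝ r u (GG v p)‖ := by
      have h3 : ∏ i, ‖iteratedFDeriv ℝ (c.partSize i) (GG v) p‖ ≤
          (1 + ‖iteratedFDeriv ℝ 1 v p‖) ^ r := by
        calc ∏ i, ‖iteratedFDeriv ℝ (c.partSize i) (GG v) p‖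
            ≤ ∏ _i : Fin c.length, (1 + ‖iteratedFDeriv ℝ 1 v p‖) := by
              refine Finset.prod_le_prod (fun i _ => norm_nonneg _) (fun i _ => ?_)
              rw [partSize_full c h1 i]
              exact norm_GG_one hv p
          _ = (1 + ‖iteratedFDeriv ℝ 1 v p‖) ^ r := by
              rw [Finset.prod_const, Finset.card_univ, Fintype.card_fin, h1]
      have h4 : ‖iteratedFDeriv ℝ c.length u (GG v p)‖ = ‖iteratedFDeriv ℝ r u (GG v p)‖ := by
        rw [h1]
      rw [mul_comm, h4]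
      exact mul_le_mul_of_nonneg_right h3 (norm_nonneg _)
    rw [if_pos h1]
    split_ifs <;> linarith
  · rw [if_neg h1]
    have hlt : c.length < r := lt_of_le_of_ne c.length_le h1
    by_cases h2 : c.length = 1
    · rw [if_pos h2]
      have h3 : ∏ i, ‖iteratedFDeriv ℝ (c.partSize i) (GG v) p‖ ≤ ‖iteratedFDeriv ℝ r v p‖ := by
        have hs := sum_partSize c
        have hu : ∀ i j : Fin c.length, i = j := fun i j => Fin.ext (by omega)
        have i0 : Fin c.length := ⟨0, hpos⟩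
        have hpr : ∏ i, ‖iteratedFDeriv ℝ (c.partSize i) (GG v) p‖ =
            ‖iteratedFDeriv ℝ (c.partSize i0) (GG v) p‖ :=
          Finset.prod_eq_single i0 (fun b _ hb => absurd (hu b i0) hb)
            (fun hb => absurd (Finset.mem_univ i0) hb)
        have hsm : ∑ i, c.partSize i = c.partSize i0 :=
          Finset.sum_eq_single i0 (fun b _ hb => absurd (hu b i0) hb)
            (fun hb => absurd (Finset.mem_univ i0) hb)
        rw [hpr]
        rw [hsm] at hs
        rw [hs]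
        exact norm_GG_two hv r (by omega) p
      have h4 : ‖iteratedFDeriv ℝ c.length u (GG v p)‖ = ‖iteratedFDeriv ℝ 1 u (GG v p)‖ := by
        rw [h2]
      rw [h4]
      have := mul_le_mul_of_nonneg_left h3 (norm_nonneg (iteratedFDeriv ℝ 1 u (GG v p)))
      linarith
    · rw [if_neg h2]
      have h2' : 2 ≤ c.length := by omega
      obtain ⟨i0, hi0⟩ := exists_partSize c hlt
      have hle : ∀ i, ‖iteratedFDeriv ℝ (c.partSize i) (GG v) p‖ ≤ 1 + a := by
        intro i
        have hlt' := partSize_lt c h2' i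
        have hp' := c.partSize_pos i
        have hva := (h (c.partSize i) hp' hlt').2
        by_cases h5 : c.partSize i = 1
        · rw [h5] at hva ⊢
          have := norm_GG_one hv p
          linarith
        · have := norm_GG_two hv (c.partSize i) (by omega) p
          linarith
      have h6 : ‖iteratedFDeriv ℝ (c.partSize i0) (GG v) p‖ ≤ a :=
        (norm_GG_two hv (c.partSize i0) hi0 p).trans
          (h (c.partSize i0) (by omega) (partSize_lt c h2' i0)).2
      have h7 : ∏ i, ‖iteratedFDeriv ℝ (c.partSize i) (GG v) p‖ ≤ a * (1 + a) ^ r := by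
        rw [← Finset.mul_prod_erase _ _ (Finset.mem_univ i0)]
        refine mul_le_mul h6 ?_ (Finset.prod_nonneg fun i _ => norm_nonneg _) ha
        calc ∏ i ∈ Finset.univ.erase i0, ‖iteratedFDeriv ℝ (c.partSize i) (GG v) p‖
            ≤ ∏ _i ∈ Finset.univ.erase i0, (1 + a) :=
              Finset.prod_le_prod (fun i _ => norm_nonneg _) (fun i _ => hle i)
          _ = (1 + a) ^ (Finset.univ.erase i0).card := Finset.prod_const _
          _ ≤ (1 + a) ^ r := by
              refine pow_le_pow_right₀ (by linarith) ?_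
              refine (Finset.card_le_univ _).trans ?_
              rw [Fintype.card_fin]
              exact c.length_le
      have h8 : ‖iteratedFDeriv ℝ c.length u (GG v p)‖ ≤ a := (h c.length hpos hlt).1
      calc ‖iteratedFDeriv ℝ c.length u (GG v p)‖ *
            ∏ i, ‖iteratedFDeriv ℝ (c.partSize i) (GG v) p‖
          ≤ a * (a * (1 + a) ^ r) :=
            mul_le_mul h8 h7 (Finset.prod_nonneg fun i _ => norm_nonneg _) ha
        _ = 0 + 0 + a ^ 2 * (1 + a) ^ r := by ring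

/-- pointwise composition estimate -/
theorem comp_pointwise {r : ℕ} (hr : 1 ≤ r) {u v : P2 → ℝ} (hu : ContDiff ℝ ∞ u)
    (hv : ContDiff ℝ ∞ v) (p : P2) {a : ℝ} (ha : 0 ≤ a)
    (h : ∀ j : ℕ, 1 ≤ j → j < r → ‖iteratedFDeriv ℝ j u (GG v p)‖ ≤ a ∧
      ‖iteratedFDeriv ℝ j v p‖ ≤ a) :
    ‖iteratedFDeriv ℝ r (u ∘ GG v) p‖ ≤
      (1 + ‖iteratedFDeriv ℝ 1 v p‖) ^ r * ‖iteratedFDeriv ℝ r u (GG v p)‖ +
      ‖iteratedFDeriv ℝ 1 u (GG v p)‖ * ‖iteratedFDeriv ℝ r v p‖ +
      (Fintype.card (OrderedFinpartition r) : ℝ) * (a ^ 2 * (1 + a) ^ r) := by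
  classical
  refine (norm_comp_le hu (GG_smooth hv) r p).trans ?_
  refine (Finset.sum_le_sum fun c _ => term_le hr hv p ha h c).trans ?_
  have hX : 0 ≤ (1 + ‖iteratedFDeriv ℝ 1 v p‖) ^ r * ‖iteratedFDeriv ℝ r u (GG v p)‖ := by
    positivity
  have hY : 0 ≤ ‖iteratedFDeriv ℝ 1 u (GG v p)‖ * ‖iteratedFDeriv ℝ r v p‖ := by positivity
  set X := (1 + ‖iteratedFDeriv ℝ 1 v p‖) ^ r * ‖iteratedFDeriv ℝ r u (GG v p)‖
  set Y := ‖iteratedFDeriv ℝ 1 u (GG v p)‖ * ‖iteratedFDeriv ℝ r v p‖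
  rw [Finset.sum_add_distrib, Finset.sum_add_distrib, ← Finset.sum_filter, ← Finset.sum_filter,
    Finset.sum_const, Finset.sum_const, Finset.sum_const, nsmul_eq_mul, nsmul_eq_mul,
    nsmul_eq_mul, Finset.card_univ]
  have c1 : ((Finset.univ.filter (fun c : OrderedFinpartition r => c.length = r)).card : ℝ) ≤ 1 := by
    have : (Finset.univ.filter (fun c : OrderedFinpartition r => c.length = r)).card ≤ 1 := by
      rw [Finset.card_le_one]
      intro c hc c' hc'
      rw [Finset.mem_filter] at hc hc'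
      exact uniq_full r c c' hc.2 hc'.2
    exact_mod_cast this
  have c2 : ((Finset.univ.filter (fun c : OrderedFinpartition r => c.length = 1)).card : ℝ) ≤ 1 := by
    have : (Finset.univ.filter (fun c : OrderedFinpartition r => c.length = 1)).card ≤ 1 := by
      rw [Finset.card_le_one]
      intro c hc c' hc'
      rw [Finset.mem_filter] at hc hc'
      obtain ⟨m, rfl⟩ : ∃ m, r = m + 1 := ⟨r - 1, by omega⟩
      exact uniq_one m c c' hc.2 hc'.2
    exact_mod_cast this
  have d1 := mul_le_mul_of_nonneg_right c1 hX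
  have d2 := mul_le_mul_of_nonneg_right c2 hY
  linarith

theorem star_eq (u v : P2 → ℝ) : star u v = v + u ∘ GG v := rfl

/-- pointwise version of EC0 -/
theorem star_pointwise {r : ℕ} (hr : 1 ≤ r) {u v : P2 → ℝ} (hu : ContDiff ℝ ∞ u)
    (hv : ContDiff ℝ ∞ v) (p : P2) {a : ℝ} (ha : 0 ≤ a)
    (h : ∀ j : ℕ, 1 ≤ j → j < r → ‖iteratedFDeriv ℝ j u (GG v p)‖ ≤ a ∧
      ‖iteratedFDeriv ℝ j v p‖ ≤ a) :
    ‖iteratedFDeriv ℝ r (star u v) p‖ ≤
      (1 + ‖iteratedFDeriv ℝ 1 u (GG v p)‖) * ‖iteratedFDeriv ℝ r v p‖ +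
      (1 + ‖iteratedFDeriv ℝ 1 v p‖) ^ r * ‖iteratedFDeriv ℝ r u (GG v p)‖ +
      (Fintype.card (OrderedFinpartition r) : ℝ) * (a ^ 2 * (1 + a) ^ r) := by
  have hj : ((r : ℕ∞ω)) ≤ (∞ : ℕ∞ω) := by exact_mod_cast le_top
  rw [star_eq, iteratedFDeriv_add_apply ((hv.of_le hj).contDiffAt)
    (((hu.comp (GG_smooth hv)).of_le hj).contDiffAt)]
  refine (norm_add_le _ _).trans ?_
  have := comp_pointwise hr hu hv p ha h
  linarith

/-- EC0: the composition estimate. -/
theorem ec0 : S_EC0 := by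
  intro r hr
  refine ⟨Fintype.card (OrderedFinpartition r), Nat.cast_nonneg _, ?_⟩
  intro u v hu hv a δu δv bu bv ha hδu hδv hbu hbv h h1 h2 h3 h4 p
  have key := star_pointwise hr hu hv p ha (fun j hj1 hj2 =>
    ⟨(h j hj1 hj2).1 (GG v p), (h j hj1 hj2).2 p⟩)
  refine key.trans ?_
  have e1 := h1 (GG v p)
  have e2 := h2 p
  have e3 := h3 (GG v p)
  have e4 := h4 p
  have f1 : (1 + ‖iteratedFDeriv ℝ 1 u (GG v p)‖) * ‖iteratedFDeriv ℝ r v p‖ ≤
      (1 + δu) * bv :=
    mul_le_mul (by linarith) e4 (norm_nonneg _) (by linarith)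
  have f2 : (1 + ‖iteratedFDeriv ℝ 1 v p‖) ^ r * ‖iteratedFDeriv ℝ r u (GG v p)‖ ≤
      (1 + δv) ^ r * bu := by
    refine mul_le_mul ?_ e3 (norm_nonneg _) (by positivity)
    exact pow_le_pow_left₀ (by positivity) (by linarith) r
  nlinarith [f1, f2]

end Pool.Agent.W397.DQ
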